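import Pool.Agent.Q320.EqTest.Main

/-!
# Testing equality on a graph costs `fc(G)` bits per bit of input
-/

namespace Pool.Agent.Results.MP_bf2f06_lc.EqualsCutPacking

open Filter Topology Pool.Agent.Q320.EqTest

/-- **`f(G) = fc(G)` for every connected graph `G`.** -/
theorem result (V : Type) [Fintype V] [DecidableEq V] (G : SimpleGraph V) (hG : G.Connected) :
    (∀ n : ℕ, ∃ P : V → (Fin n → Bool) → Prog V, Decides G n P (cost G n)) ∧
      Tendsto (fun n : ℕ => (cost G n : ℝ) / n) atTop (𝓝 (fc G)) :=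
  ⟨cost_spec hG, main hG⟩

end Pool.Agent.Results.MP_bf2f06_lc.EqualsCutPacking
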